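import Mathlib
import Pool.Agent.Q141.CC.Main

set_option autoImplicit false

open scoped InnerProductSpace ENNReal

namespace Pool.Agent.Results.MP_41729c_an.CouplingConstants

universe u

section

variable {H : Type u} [NormedAddCommGroup H] [InnerProductSpace ℂ H] [CompleteSpace H]

/-- The closed unit ball (operator norm) of the von Neumann algebra `M ⊆ B(H)`. -/
def unitBall (M : VonNeumannAlgebra H) : Set (H →L[ℂ] H) := {x | x ∈ M ∧ ‖x‖ ≤ 1}

/-- The Kadison–Kastler distance of `M` and `N`: the Hausdorff distance, in operator norm, of the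
closed unit balls. -/
noncomputable def kkDist (M N : VonNeumannAlgebra H) : ℝ :=
  Metric.hausdorffDist (unitBall M) (unitBall N)

/-- `M ⊆ B(H)` is a II₁ factor and `τ` is its faithful normal tracial state: `M` is infinite
dimensional with trivial centre, and `τ` is unital, tracial, faithful and a countable sum of vector
functionals `x ↦ ∑ ⟨x ξ_k, ξ_k⟩` (hence linear, positive and normal). -/
structure IsIIOneFactor (M : VonNeumannAlgebra H) (τ : M.toStarSubalgebra → ℂ) : Prop where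
  center : ∀ z ∈ M, (∀ x ∈ M, z * x = x * z) → ∃ c : ℂ, z = c • (1 : H →L[ℂ] H)
  infinite : ¬ FiniteDimensional ℂ M.toStarSubalgebra
  one : τ 1 = 1
  tracial : ∀ x y, τ (x * y) = τ (y * x)
  faithful : ∀ x, τ (star x * x) = 0 → x = 0
  normal : ∃ ξ : ℕ → H, Summable (fun k => ‖ξ k‖ ^ 2) ∧
    ∀ x : M.toStarSubalgebra, τ x = ∑' k, ⟪ξ k, (x : H →L[ℂ] H) (ξ k)⟫_ℂ

/-- The `p i` are projections of `M`, and the vectors `η i` define an embedding of the left
`M`-module `L²(M) p₁ ⊕ ⋯ ⊕ L²(M) pₙ` into `H`: since `⟨η_j, x η_i⟩` is `τ(x p_i)` for `i = j` and `0`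
otherwise, `(x_i p_i)_i ↦ ∑ x_i η_i` is isometric and `M`-linear (and every isometric `M`-linear
map of that module into `H` is of this form, with `η i` the image of `p_i ∈ L²(M) p_i`). -/
structure IsEmbedding (M : VonNeumannAlgebra H) (τ : M.toStarSubalgebra → ℂ) {n : ℕ}
    (p : Fin n → M.toStarSubalgebra) (η : Fin n → H) : Prop where
  star_eq : ∀ i, star (p i) = p i
  idem : ∀ i, p i * p i = p i
  gram : ∀ (x : M.toStarSubalgebra) (i j : Fin n),
    ⟪η j, (x : H →L[ℂ] H) (η i)⟫_ℂ = if i = j then τ (x * p i) else 0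

/-- The Murray–von Neumann dimension (coupling constant) `dim_M(H) ∈ [0, ∞]`: the supremum of
`τ(p₁) + ⋯ + τ(pₙ)`, the dimension of `L²(M) p₁ ⊕ ⋯ ⊕ L²(M) pₙ`, over all finite families of
projections of `M` for which this module embeds into `H`. (Every left `M`-module is a direct sum of
modules `L²(M) p`, and `dim L²(M) = 1`.) -/
noncomputable def dimension (M : VonNeumannAlgebra H) (τ : M.toStarSubalgebra → ℂ) : ℝ≥0∞ :=
  ⨆ (n : ℕ) (p : Fin n → M.toStarSubalgebra) (_ : ∃ η : Fin n → H, IsEmbedding M τ p η),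
    ENNReal.ofReal (∑ i, (τ (p i)).re)

end

section proof

open Pool.Agent.Q141.CC
open Pool.Agent.Helper278 (TracialState HasTrivialCenter IsDiffuse)

variable {H : Type u} [NormedAddCommGroup H] [InnerProductSpace ℂ H] [CompleteSpace H]

theorem fin_edist (M N : VonNeumannAlgebra H) :
    Metric.hausdorffEDist (unitBall M) (unitBall N) ≠ ⊤ := by
  refine Metric.hausdorffEDist_ne_top_of_nonempty_of_bounded ⟨0, zero_mem M, by simp⟩
    ⟨0, zero_mem N, by simp⟩ ?_ ?_
  · exact (Metric.isBounded_closedBall (x := (0 : H →L[ℂ] H)) (r := 1)).subset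
      fun x hx => by simpa using hx.2
  · exact (Metric.isBounded_closedBall (x := (0 : H →L[ℂ] H)) (r := 1)).subset
      fun x hx => by simpa using hx.2

theorem nearIn_of_kkDist {M N : VonNeumannAlgebra H} (h : kkDist M N < del) : NearIn M N del := by
  intro x hx hx1
  obtain ⟨y, hy, hxy⟩ := Metric.exists_dist_lt_of_hausdorffDist_lt
    (show x ∈ unitBall M from ⟨hx, hx1⟩) h (fin_edist M N)
  rw [dist_eq_norm] at hxy
  exact ⟨y, hy.1, hxy.le⟩

theorem le_dimension {M N : VonNeumannAlgebra H} {τM : M.toStarSubalgebra → ℂ}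
    {τN : N.toStarSubalgebra → ℂ} (hM : IsIIOneFactor M τM) (hN : IsIIOneFactor N τN)
    (hMN : NearIn M N del) (hNM : NearIn N M del) : dimension M τM ≤ dimension N τN := by
  obtain ⟨ξ, hξs, hξ⟩ := hM.normal
  obtain ⟨ζ, hζs, hζ⟩ := hN.normal
  let T : TracialState M := Helper278.mkState M τM hM.normal ⟨hM.one, hM.tracial, hM.faithful⟩
  have hT : ∀ x : M.toStarSubalgebra, T.τ x = tr ξ (x : H →L[ℂ] H) := fun x => hξ x
  have hξv : TrVec M ξ := ⟨hξs, (hξ 1).symm.trans hM.one, fun x hx y hy =>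
    (hξ (⟨x, hx⟩ * ⟨y, hy⟩)).symm.trans ((hM.tracial _ _).trans (hξ (⟨y, hy⟩ * ⟨x, hx⟩)))⟩
  have hζv : TrVec N ζ := ⟨hζs, (hζ 1).symm.trans hN.one, fun x hx y hy =>
    (hζ (⟨x, hx⟩ * ⟨y, hy⟩)).symm.trans ((hN.tracial _ _).trans (hζ (⟨y, hy⟩ * ⟨x, hx⟩)))⟩
  have hdiff : IsDiffuse M := Helper278.diffuse_of_factor T hM.center hM.infinite
  refine iSup_le fun n => iSup_le fun p => iSup_le fun hp => ?_
  obtain ⟨η, hη⟩ := hp
  have hF : Fam M ξ (fun i => (p i : H →L[ℂ] H)) η := by
    intro x hx i j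
    have h1 := hη.gram ⟨x, hx⟩ i j
    have h2 : τM (⟨x, hx⟩ * p i) = tr ξ (x * (p i : H →L[ℂ] H)) := hξ _
    rw [h2] at h1
    convert h1
  obtain ⟨q', η', hq1, hq2, hq3, hq4, hq5⟩ := main_transfer T hξv hT hM.center hdiff hζv hMN hNM
    (fun i => (p i).2) (fun i => congrArg Subtype.val (hη.star_eq i))
    (fun i => congrArg Subtype.val (hη.idem i)) hF
  have hE : IsEmbedding N τN (fun i => (⟨q' i, hq1 i⟩ : N.toStarSubalgebra)) η' := by
    refine ⟨fun i => Subtype.ext (hq2 i), fun i => Subtype.ext (hq3 i), fun x i j => ?_⟩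
    have h1 := hq5 x x.2 i j
    have h2 : τN (x * ⟨q' i, hq1 i⟩) = tr ζ ((x : H →L[ℂ] H) * q' i) := hζ _
    rw [h2]
    convert h1
  have hsum : ∑ i, (τM (p i)).re = ∑ i, (τN ⟨q' i, hq1 i⟩).re := by
    refine Finset.sum_congr rfl fun i _ => ?_
    have h1 : τM (p i) = tr ξ (p i : H →L[ℂ] H) := hξ _
    have h2 : τN ⟨q' i, hq1 i⟩ = tr ζ (q' i) := hζ _
    rw [h1, h2, hq4]
  rw [hsum]
  exact le_iSup_of_le n (le_iSup_of_le (fun i => (⟨q' i, hq1 i⟩ : N.toStarSubalgebra))
    (le_iSup_of_le ⟨η', hE⟩ le_rfl))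

end proof

/-- **Q1, answered positively.** There is a universal `δ > 0` such that II₁ factors
`M, N ⊆ B(H)` at Kadison–Kastler distance less than `δ`, on any Hilbert space `H`, have the same
coupling constant: `dim_M(H) = dim_N(H)`, without any bound on the coupling constants (which may be
infinite). -/
theorem result :
    ∃ δ : ℝ, 0 < δ ∧ ∀ (H : Type u) [NormedAddCommGroup H] [InnerProductSpace ℂ H]
      [CompleteSpace H] (M N : VonNeumannAlgebra H) (τM : M.toStarSubalgebra → ℂ)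
      (τN : N.toStarSubalgebra → ℂ), IsIIOneFactor M τM → IsIIOneFactor N τN →
        kkDist M N < δ → dimension M τM = dimension N τN := by
  refine ⟨Pool.Agent.Q141.CC.del, Pool.Agent.Q141.CC.del_pos, ?_⟩
  intro H _ _ _ M N τM τN hM hN h
  have h1 := nearIn_of_kkDist h
  have h' : kkDist N M < Pool.Agent.Q141.CC.del := by
    unfold kkDist at h ⊢
    rwa [Metric.hausdorffDist_comm]
  have h2 := nearIn_of_kkDist h'
  exact le_antisymm (le_dimension hM hN h1 h2) (le_dimension hN hM h2 h1)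

end Pool.Agent.Results.MP_41729c_an.CouplingConstants
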